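import Pool.Agent.Run7.h889.Final2
import Pool.Agent.Run7.h889.Coef
import Pool.Agent.Run7.h889.Str
import Pool.Agent.Run7.h892.P889.RT
import Pool.Agent.Run7.h622.P889.Desc

/-!
# Watanabe's question: `M_d = d - 3/2`, and the supremum is a maximum

For every `d ≥ 3`, every F-finite F-pure Noetherian normal local domain `(R, 𝔪)` of characteristic
`p` and Krull dimension `d` that is not `ℚ`-Gorenstein has `fpt(𝔪) ≤ d - 3/2`, and in every
characteristic `p` there is such a ring with `fpt(𝔪) = d - 3/2`.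
-/

set_option autoImplicit false

universe u

namespace Pool.Agent.Results.MP_7dd379_ag.MaximalThreshold

open Run7.h889

/-- **The largest F-pure threshold of the maximal ideal of a ring that is not `ℚ`-Gorenstein.**
For `d ≥ 3`: (1) the upper bound `fpt(𝔪) ≤ d - 3/2` for all rings of the problem; (2) in every
characteristic `p` it is attained; (3) so `M_d = d - 3/2`, and it is a maximum. -/
theorem result (d : ℕ) (hd : 3 ≤ d) :
    (∀ (p : ℕ) (R : Type u) [CommRing R] [IsLocalRing R], IsFPureNonQGor p d R →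
      fpt p R (IsLocalRing.maximalIdeal R) ≤ (((d : ℝ) - 3 / 2 : ℝ) : EReal)) ∧
    (∀ p : ℕ, p.Prime → ∃ (R : Type) (_ : CommRing R) (_ : IsLocalRing R),
      IsFPureNonQGor p d R ∧
      fpt p R (IsLocalRing.maximalIdeal R) = (((d : ℝ) - 3 / 2 : ℝ) : EReal)) ∧
    IsGreatest {x : EReal | ∃ (p : ℕ) (R : Type) (_ : CommRing R) (_ : IsLocalRing R),
      IsFPureNonQGor p d R ∧ x = fpt p R (IsLocalRing.maximalIdeal R)}
      (((d : ℝ) - 3 / 2 : ℝ) : EReal) :=
  final_of t_COEF t_STR Run7.h622.P889.t_DESC Run7.h892.P889.t_RT t_COEF t_STR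
    Run7.h622.P889.t_DESC Run7.h892.P889.t_RT d hd

end Pool.Agent.Results.MP_7dd379_ag.MaximalThreshold
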